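import Mathlib

set_option autoImplicit false

namespace Pool.Agent.MP_542436_nt.H79

open Finset

section Abs

variable {R : Type} [CommRing R] [IsDomain R]

open Classical in
/-- The set of jumps of the filtration. -/
noncomputable def jumps (g : R) (ev : ℕ → R →+* ℚ) (U : R → Prop) (J N : ℕ) : Finset (ℕ × ℕ) :=
  (range (J + 1) ×ˢ range N).filter
    (fun z => ∃ h, U (g ^ z.1 * h) ∧ (∀ i, i < z.2 → ev i h = 0) ∧ ev z.2 h ≠ 0)

theorem jumps_sub (g : R) (ev : ℕ → R →+* ℚ) (U : R → Prop) (J N : ℕ) :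
    jumps g ev U J N ⊆ range (J + 1) ×ˢ range N := by
  classical
  unfold jumps
  convert filter_subset _ _

theorem mem_jumps {g : R} {ev : ℕ → R →+* ℚ} {U : R → Prop} {J N : ℕ} {z : ℕ × ℕ} :
    z ∈ jumps g ev U J N ↔ (z.1 ≤ J ∧ z.2 < N) ∧
      ∃ h, U (g ^ z.1 * h) ∧ (∀ i, i < z.2 → ev i h = 0) ∧ ev z.2 h ≠ 0 := by
  classical
  unfold jumps
  simp only [mem_filter, mem_product, mem_range, Nat.lt_succ_iff]

/-- The part of the product from position `(j, i)` on. -/
noncomputable def tailP (Nt : Finset (ℕ × ℕ)) (c : ℕ × ℕ → ℝ) (j i : ℕ) : ℝ :=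
  ∏ z ∈ Nt.filter (fun z => j < z.1 ∨ (j = z.1 ∧ i ≤ z.2)), c z

theorem prod_mono_one {ι : Type} [DecidableEq ι] {s t : Finset ι} (c : ι → ℝ) (hc : ∀ z, 1 ≤ c z)
    (h : s ⊆ t) : ∏ z ∈ s, c z ≤ ∏ z ∈ t, c z := by
  rw [← prod_sdiff h]
  have h1 : (1 : ℝ) ≤ ∏ z ∈ t \ s, c z := one_le_prod (fun z _ => hc z)
  have h2 : (0 : ℝ) ≤ ∏ z ∈ s, c z := prod_nonneg (fun z _ => le_trans zero_le_one (hc z))
  nlinarith

theorem count (g : R) (ev : ℕ → R →+* ℚ) (U : R → Prop) (J N : ℕ)
    (S : Finset R) (c : ℕ × ℕ → ℝ) (hc : ∀ z, 1 ≤ c z)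
    (hU : ∀ f ∈ S, ∀ f' ∈ S, U (f - f'))
    (htop : ∀ j h, U (g ^ j * h) → h ≠ 0 → j ≤ J)
    (hbez : ∀ j h, U (g ^ j * h) → (∀ i, i < N → ev i h = 0) → g ∣ h)
    (hval : ∀ j i, i < N → ∀ f0 ∈ S, ∃ T : Finset ℚ, (T.card : ℝ) ≤ c (j, i) ∧
      ∀ f ∈ S, ∀ h, f - f0 = g ^ j * h → (∀ i', i' < i → ev i' h = 0) → ev i h ∈ T) :
    (S.card : ℝ) ≤ ∏ z ∈ jumps g ev U J N, c z := by
  classical
  set Nt := jumps g ev U J N with hNt
  let P : ℕ → ℕ → Prop := fun j i => ∀ S' : Finset R, S' ⊆ S →
    (∀ f ∈ S', ∀ f' ∈ S', ∃ h, f - f' = g ^ j * h ∧ ∀ i', i' < i → ev i' h = 0) →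
    (S'.card : ℝ) ≤ tailP Nt c j i
  have hbase : P (J + 1) 0 := by
    intro S' hS' hd
    have h1 : S'.card ≤ 1 := by
      rw [card_le_one]
      intro f hf f' hf'
      obtain ⟨h, he, -⟩ := hd f hf f' hf'
      by_cases h0 : h = 0
      · rw [h0, mul_zero] at he
        exact sub_eq_zero.mp he
      · have := htop (J + 1) h (he ▸ hU f (hS' hf) f' (hS' hf')) h0
        omega
    have h2 : (1 : ℝ) ≤ tailP Nt c (J + 1) 0 := one_le_prod (fun z _ => hc z)
    have h3 : (S'.card : ℝ) ≤ 1 := by exact_mod_cast h1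
    linarith
  have hA : ∀ j, P (j + 1) 0 → P j N := by
    intro j hP S' hS' hd
    refine le_trans (hP S' hS' ?_) (prod_mono_one c hc ?_)
    · intro f hf f' hf'
      obtain ⟨h, he, hv⟩ := hd f hf f' hf'
      obtain ⟨h', rfl⟩ := hbez j h (he ▸ hU f (hS' hf) f' (hS' hf')) hv
      exact ⟨h', by rw [he]; ring, fun i' hi' => absurd hi' (Nat.not_lt_zero _)⟩
    · intro z hz
      simp only [mem_filter] at hz ⊢
      exact ⟨hz.1, by omega⟩
  have hB : ∀ j i, i < N → P j (i + 1) → P j i := by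
    intro j i hi hP S' hS' hd
    by_cases hz : (j, i) ∈ Nt
    · rcases S'.eq_empty_or_nonempty with rfl | ⟨f0, hf0⟩
      · have h2 : (1 : ℝ) ≤ tailP Nt c j i := one_le_prod (fun z _ => hc z)
        simp only [card_empty, Nat.cast_zero]
        linarith
      obtain ⟨T, hT, hTm⟩ := hval j i hi f0 (hS' hf0)
      have hch : ∀ f : R, ∃ h, f ∈ S' → f - f0 = g ^ j * h ∧ ∀ i', i' < i → ev i' h = 0 := by
        intro f
        by_cases hf : f ∈ S'
        · obtain ⟨h, hh⟩ := hd f hf f0 hf0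
          exact ⟨h, fun _ => hh⟩
        · exact ⟨0, fun h => absurd h hf⟩
      choose H hH using hch
      have hmap : ∀ f ∈ S', ev i (H f) ∈ T := fun f hf =>
        hTm f (hS' hf) (H f) (hH f hf).1 (hH f hf).2
      have hfib : ∀ t ∈ T, ((S'.filter (fun f => ev i (H f) = t)).card : ℝ) ≤
          tailP Nt c j (i + 1) := by
        intro t _
        refine hP _ (fun f hf => hS' (mem_filter.mp hf).1) ?_
        intro f hf f' hf'
        rw [mem_filter] at hf hf'
        refine ⟨H f - H f', ?_, fun i' hi' => ?_⟩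
        · rw [mul_sub, ← (hH f hf.1).1, ← (hH f' hf'.1).1]; ring
        · rw [map_sub]
          rcases Nat.lt_succ_iff_lt_or_eq.mp hi' with h1 | rfl
          · rw [(hH f hf.1).2 i' h1, (hH f' hf'.1).2 i' h1, sub_zero]
          · rw [hf.2, hf'.2, sub_self]
      have hcard : (S'.card : ℝ) = ∑ t ∈ T, ((S'.filter (fun f => ev i (H f) = t)).card : ℝ) := by
        rw [card_eq_sum_card_fiberwise hmap]
        push_cast
        rfl
      have hpos : (0 : ℝ) ≤ tailP Nt c j (i + 1) :=
        le_trans zero_le_one (one_le_prod (fun z _ => hc z))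
      have hins : tailP Nt c j i = c (j, i) * tailP Nt c j (i + 1) := by
        unfold tailP
        rw [← prod_insert (f := c) (a := (j, i))]
        · congr 1
          ext z
          simp only [mem_filter, mem_insert]
          constructor
          · rintro ⟨h1, h2⟩
            by_cases h3 : z = (j, i)
            · exact Or.inl h3
            · refine Or.inr ⟨h1, ?_⟩
              have : ¬ (z.1 = j ∧ z.2 = i) := fun h => h3 (Prod.ext h.1 h.2)
              omega
          · rintro (rfl | ⟨h1, h2⟩)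
            · exact ⟨hz, Or.inr ⟨rfl, le_rfl⟩⟩
            · exact ⟨h1, by omega⟩
        · simp only [mem_filter, not_and]
          intro _
          omega
      rw [hcard, hins]
      calc ∑ t ∈ T, ((S'.filter (fun f => ev i (H f) = t)).card : ℝ)
          ≤ ∑ t ∈ T, tailP Nt c j (i + 1) := sum_le_sum hfib
        _ = T.card * tailP Nt c j (i + 1) := by rw [sum_const, nsmul_eq_mul]
        _ ≤ _ := mul_le_mul_of_nonneg_right hT hpos
    · refine le_trans (hP S' hS' ?_) (prod_mono_one c hc ?_)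
      · intro f hf f' hf'
        obtain ⟨h, he, hv⟩ := hd f hf f' hf'
        refine ⟨h, he, fun i' hi' => ?_⟩
        rcases Nat.lt_succ_iff_lt_or_eq.mp hi' with h1 | rfl
        · exact hv i' h1
        · by_contra hne
          have hu : U (g ^ j * h) := he ▸ hU f (hS' hf) f' (hS' hf')
          have h0 : h ≠ 0 := by
            rintro rfl
            exact hne (map_zero _)
          exact hz (mem_jumps.mpr ⟨⟨htop j h hu h0, hi⟩, h, hu, hv, hne⟩)
      · intro z hz
        simp only [mem_filter] at hz ⊢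
        exact ⟨hz.1, by omega⟩
  have hrow : ∀ j, P (j + 1) 0 → P j 0 := by
    intro j hP
    have : ∀ k, k ≤ N → P j (N - k) := by
      intro k
      induction k with
      | zero => intro _; exact hA j hP
      | succ k ih =>
        intro hk
        apply hB j _ (by omega)
        have : N - (k + 1) + 1 = N - k := by omega
        rw [this]
        exact ih (by omega)
    have h := this N le_rfl
    rwa [Nat.sub_self] at h
  have hall : ∀ k, k ≤ J + 1 → P (J + 1 - k) 0 := by
    intro k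
    induction k with
    | zero => intro _; exact hbase
    | succ k ih =>
      intro hk
      apply hrow
      have : J + 1 - (k + 1) + 1 = J + 1 - k := by omega
      rw [this]
      exact ih (by omega)
  have h0 := hall (J + 1) le_rfl
  rw [Nat.sub_self] at h0
  refine le_trans (h0 S Subset.rfl ?_) (prod_mono_one c hc (filter_subset _ _))
  intro f _ f' _
  exact ⟨f - f', by simp, fun i' hi' => absurd hi' (Nat.not_lt_zero _)⟩

theorem indep (g : R) (ev : ℕ → R →+* ℚ) (U : R → Prop) (J N : ℕ) (hg : g ≠ 0)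
    (hev : ∀ i, i < N → ev i g = 0) (j : ℕ) :
    ∃ F : Fin ((jumps g ev U J N).filter (fun z => j ≤ z.1)).card → R,
      LinearIndependent ℤ F ∧ ∀ k, U (g ^ j * F k) := by
  classical
  set A := (jumps g ev U J N).filter (fun z => j ≤ z.1) with hA
  have hch : ∀ z : A, ∃ h, U (g ^ z.1.1 * h) ∧ (∀ i, i < z.1.2 → ev i h = 0) ∧ ev z.1.2 h ≠ 0 :=
    fun z => (mem_jumps.mp (mem_filter.mp z.2).1).2
  choose H hH using hch
  have hj : ∀ z : A, j ≤ z.1.1 := fun z => (mem_filter.mp z.2).2
  have hN : ∀ z : A, z.1.2 < N := fun z => (mem_jumps.mp (mem_filter.mp z.2).1).1.2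
  have hli : LinearIndependent ℤ (fun z : A => g ^ (z.1.1 - j) * H z) := by
    rw [linearIndependent_iff']
    intro s c hs
    by_contra hne
    push Not at hne
    obtain ⟨z1, hz1, hc1⟩ := hne
    obtain ⟨z0, hz0, hmin⟩ := exists_min_image (s.filter (fun z => c z ≠ 0))
      (fun z => toLex z.1) ⟨z1, mem_filter.mpr ⟨hz1, hc1⟩⟩
    have hlex : ∀ z ∈ s.filter (fun z => c z ≠ 0),
        z0.1.1 < z.1.1 ∨ (z0.1.1 = z.1.1 ∧ z0.1.2 ≤ z.1.2) := fun z hz =>
      Prod.Lex.toLex_le_toLex.mp (hmin z hz)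
    have h1 : ∑ z ∈ s.filter (fun z => c z ≠ 0), c z • (g ^ (z.1.1 - j) * H z) = 0 := by
      rw [← hs, sum_filter]
      refine sum_congr rfl (fun z _ => ?_)
      split_ifs with h
      · rfl
      · push Not at h
        rw [h, zero_smul]
    have h2 : g ^ (z0.1.1 - j) *
        ∑ z ∈ s.filter (fun z => c z ≠ 0), c z • (g ^ (z.1.1 - z0.1.1) * H z) = 0 := by
      rw [← h1, mul_sum]
      refine sum_congr rfl (fun z hz => ?_)
      have e : z.1.1 - j = (z0.1.1 - j) + (z.1.1 - z0.1.1) := by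
        have := hlex z hz
        have := hj z0
        omega
      rw [e, pow_add, mul_smul_comm, mul_assoc]
    have h3 := (mul_eq_zero.mp h2).resolve_left (pow_ne_zero _ hg)
    have h4 := congrArg (ev z0.1.2) h3
    rw [map_sum, map_zero, sum_eq_single z0] at h4
    · rw [map_zsmul, Nat.sub_self, pow_zero, one_mul, smul_eq_zero] at h4
      rcases h4 with h4 | h4
      · exact (mem_filter.mp hz0).2 h4
      · exact (hH z0).2.2 h4
    · intro z hz hzz
      rw [map_zsmul, map_mul, map_pow]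
      rcases hlex z hz with h | ⟨h, h'⟩
      · rw [hev _ (hN z0), zero_pow (by omega), zero_mul, smul_zero]
      · have : z0.1.2 < z.1.2 := by
          rcases Nat.lt_or_ge z0.1.2 z.1.2 with h2 | h2
          · exact h2
          · exact absurd (Subtype.ext (Prod.ext h.symm (le_antisymm h2 h'))) hzz
        rw [(hH z).2.1 _ this, mul_zero, smul_zero]
    · intro h
      exact absurd hz0 h
  refine ⟨fun k => (fun z : A => g ^ (z.1.1 - j) * H z) (A.equivFin.symm k),
    hli.comp _ A.equivFin.symm.injective, fun k => ?_⟩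
  have := (hH (A.equivFin.symm k)).1
  have e : (A.equivFin.symm k).1.1 = j + ((A.equivFin.symm k).1.1 - j) := by
    have := hj (A.equivFin.symm k)
    omega
  rw [e, pow_add, mul_assoc] at this
  exact this

end Abs

end Pool.Agent.MP_542436_nt.H79
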