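import Pool.Agent.MP_542436_nt.Sp.Spec
import Pool.Agent.MP_542436_nt.H79.FiltA

set_option autoImplicit false

namespace Pool.Agent.MP_542436_nt.H79

open Polynomial NumberField Finset Pool.Agent.MP_542436_nt.Sp

theorem up_mul (L : Type) [CommRing L] (f g : ℤ[X][X]) : up L (f * g) = up L f * up L g := by
  unfold up
  rw [Polynomial.map_mul]

theorem up_sub (L : Type) [CommRing L] (f g : ℤ[X][X]) : up L (f - g) = up L f - up L g := by
  unfold up
  rw [Polynomial.map_sub]

theorem dg_sub {M N : ℕ} {f g : ℤ[X][X]} (hf : Dg M N f) (hg : Dg M N g) : Dg M N (f - g) := by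
  intro i k h
  by_cases h1 : cf f i k = 0
  · apply hg i k
    intro h2
    apply h
    simp only [cf, coeff_sub] at *
    rw [h1, h2, sub_zero]
  · exact hf i k h1

theorem dg_mono {M N M' N' : ℕ} {f : ℤ[X][X]} (hM : M ≤ M') (hN : N ≤ N') (hf : Dg M N f) :
    Dg M' N' f := fun i k h => ⟨lt_of_lt_of_le (hf i k h).1 hM, lt_of_lt_of_le (hf i k h).2 hN⟩

theorem dS_pow_mul (hB : BaseStmt) (g h : ℤ[X][X]) (hg : g ≠ 0) (hh : h ≠ 0) (j : ℕ) :
    dS (g ^ j * h) = j * dS g + dS h := by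
  induction j with
  | zero => simp
  | succ j ih =>
    rw [pow_succ', mul_assoc, hB.dS_mul ℤ g _ hg (mul_ne_zero (pow_ne_zero _ hg) hh), ih]
    ring

theorem ord_pow_cancel (hB : BaseStmt) {K : Type} [Field K] (ω θ : K) (g h : ℤ[X][X]) (r2 : ℕ)
    (h1 : Ord ω θ r2 (up K g)) (h2 : ¬ Ord ω θ (r2 + 1) (up K g)) (j : ℕ) :
    ∀ r, Ord ω θ r (up K (g ^ j * h)) → Ord ω θ (r - j * r2) (up K h) := by
  induction j with
  | zero => intro r hr; simpa using hr
  | succ j ih =>
    intro r hr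
    rw [pow_succ', mul_assoc, up_mul] at hr
    have h3 := ih _ (hB.ord_cancel K ω θ r r2 _ _ h1 h2 hr)
    have e : r - r2 - j * r2 = r - (j + 1) * r2 := by
      rw [add_mul, one_mul]
      omega
    rwa [e] at h3

/-- Evaluation at a rational point as a ring homomorphism. -/
noncomputable def evq (s t : ℚ) : ℤ[X][X] →+* ℚ :=
  (evalEvalRingHom s t).comp (mapRingHom (mapRingHom (Int.castRingHom ℚ)))

theorem evq_apply (s t : ℚ) (f : ℤ[X][X]) : evq s t f = (up ℚ f).evalEval s t := by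
  simp [evq, up]

theorem card_Icc_floor (x : ℝ) (hx : 0 ≤ x) :
    (((Icc (-⌊x⌋) ⌊x⌋ : Finset ℤ)).card : ℝ) ≤ 2 * x + 1 := by
  have h0 : 0 ≤ ⌊x⌋ := Int.floor_nonneg.mpr hx
  have h1 : (((Icc (-⌊x⌋) ⌊x⌋ : Finset ℤ)).card : ℤ) = 2 * ⌊x⌋ + 1 := by
    rw [Int.card_Icc, Int.toNat_of_nonneg (by omega)]
    ring
  have h2 : (((Icc (-⌊x⌋) ⌊x⌋ : Finset ℤ)).card : ℝ) = 2 * (⌊x⌋ : ℝ) + 1 := by exact_mod_cast h1
  have := Int.floor_le x
  linarith

theorem filt (hB : BaseStmt) (hP : PDivStmt) (hS : SchwStmt) (hZ : BezStmt) (hC : CapStmt) :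
    FiltStmt := by
  classical
  intro K _ _ d θ ω hst hgen m n r m' n' r' m2 n2 r2 q N g X A B p0 Q hm1 hm2 hn1 hn2 hr hcrv hq
    hqp hN hfam S Bd hBd hSf hval
  have hg0 : g ≠ 0 := hcrv.irr.ne_zero
  let ev : ℕ → ℤ[X][X] →+* ℚ := fun i => evq (((Q i).x : ℚ) / (Q i).y) (((Q i).a : ℚ) / (Q i).b)
  let U : ℤ[X][X] → Prop := fun f => Dg (m + 1) (n + 1) f ∧ Ord ω θ r (up K f)
  have hgD : Dg (m2 + 1) (n2 + 1) g :=
    (hB.dg_iff ℤ m2 n2 g).mpr ⟨hcrv.hm.le, hcrv.hn.le⟩
  have hy : ∀ i, i < N → ((Q i).y : ℚ) ≠ 0 := fun i hi => by exact_mod_cast (hfam.inc i hi).y0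
  have hb : ∀ i, i < N → ((Q i).b : ℚ) ≠ 0 := fun i hi => by exact_mod_cast (hfam.inc i hi).b0
  have hve : ∀ i, i < N → ∀ (a b : ℕ) (f : ℤ[X][X]), Dg (a + 1) (b + 1) f →
      (((Q i).val a b f : ℤ) : ℚ) = ((Q i).y : ℚ) ^ a * ((Q i).b : ℚ) ^ b * ev i f := by
    intro i hi a b f hf
    simp only [ev, evq_apply]
    exact hB.hval_eq ℚ a b f _ _ _ _ hf (hy i hi) (hb i hi)
  have hevg : ∀ i, i < N → ev i g = 0 := by
    intro i hi
    have h1 := hve i hi m2 n2 g hgD
    rw [hfam.on i hi, Int.cast_zero] at h1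
    exact (mul_eq_zero.mp h1.symm).resolve_left
      (mul_ne_zero (pow_ne_zero _ (hy i hi)) (pow_ne_zero _ (hb i hi)))
  have hdeg : ∀ j h, U (g ^ j * h) → h ≠ 0 → j * m2 ≤ m ∧ j * n2 ≤ n ∧
      Dg (m - j * m2 + 1) (n - j * n2 + 1) h := by
    intro j h hu h0
    obtain ⟨h1, h2⟩ := (hB.dg_iff ℤ m n _).mp hu.1
    rw [dS_pow_mul hB g h hg0 h0, hcrv.hm] at h1
    rw [natDegree_mul (pow_ne_zero _ hg0) h0, natDegree_pow, hcrv.hn] at h2
    exact ⟨by omega, by omega, (hB.dg_iff ℤ _ _ h).mpr ⟨by omega, by omega⟩⟩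
  have hord : ∀ j h, U (g ^ j * h) → Ord ω θ (r - j * r2) (up K h) := fun j h hu =>
    ord_pow_cancel hB ω θ g h r2 hcrv.ord hcrv.nord j r hu.2
  have hU : ∀ f ∈ S, ∀ f' ∈ S, U (f - f') := by
    intro f hf f' hf'
    refine ⟨dg_sub (hSf f hf).1 (hSf f' hf').1, ?_⟩
    rw [up_sub]
    exact hB.ord_sub K ω θ r _ _ (hSf f hf).2 (hSf f' hf').2
  refine ⟨jumps g ev U (min (m / m') (n / n')) N, jumps_sub _ _ _ _ _, fun j => ?_, ?_⟩
  · obtain ⟨F, hli, hF⟩ := indep g ev U (min (m / m') (n / n')) N hg0 hevg j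
    refine hC K d θ ω hst hgen _ _ _ _ F hli (fun k => ?_)
    have h0 : F k ≠ 0 := hli.ne_zero k
    obtain ⟨h1, h2, h3⟩ := hdeg j (F k) (hF k) h0
    have h4 : j * m' ≤ j * m2 := Nat.mul_le_mul_left j hm2
    have h5 : j * n' ≤ j * n2 := Nat.mul_le_mul_left j hn2
    have h6 : j * r2 ≤ j * r' := Nat.mul_le_mul_left j hr
    exact ⟨dg_mono (by omega) (by omega) h3,
      hB.ord_mono K ω θ _ _ _ (by omega) (hord j (F k) (hF k))⟩
  · have hq0 : (0 : ℝ) < q := by exact_mod_cast hq.pos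
    refine count g ev U _ N S (fun z => 2 * Bd z.1 / (q : ℝ) ^ z.2 + 1) (fun z => ?_) hU
      (fun j h hu h0 => ?_) (fun j h hu hv => ?_) (fun j i hi f0 hf0 => ?_)
    · have : 0 ≤ 2 * Bd z.1 / (q : ℝ) ^ z.2 := div_nonneg (by linarith [hBd z.1]) (by positivity)
      linarith
    · obtain ⟨h1, h2, -⟩ := hdeg j h hu h0
      have h4 : j * m' ≤ j * m2 := Nat.mul_le_mul_left j hm2
      have h5 : j * n' ≤ j * n2 := Nat.mul_le_mul_left j hn2
      exact le_min ((Nat.le_div_iff_mul_le (by omega)).mpr (by omega))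
        ((Nat.le_div_iff_mul_le (by omega)).mpr (by omega))
    · by_cases h0 : h = 0
      · rw [h0]; exact dvd_zero _
      by_contra hnd
      obtain ⟨h1, h2, h3⟩ := hdeg j h hu h0
      have h4 : Dg (m + 1) (n + 1) h := dg_mono (by omega) (by omega) h3
      have h5 := hZ m2 n2 m n g h hcrv.irr (by rw [hcrv.hn]; omega) hgD h4 hnd
        ((range N).image
          (fun i => ((((Q i).x : ℚ) / (Q i).y, ((Q i).a : ℚ) / (Q i).b) : ℚ × ℚ))) (by
          intro e he
          obtain ⟨i, hi, rfl⟩ := mem_image.mp he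
          rw [mem_range] at hi
          exact ⟨by rw [← evq_apply]; exact hevg i hi, by rw [← evq_apply]; exact hv i hi⟩)
      rw [card_image_of_injOn, card_range] at h5
      · omega
      · have key : ∀ i i', i < i' → i' < N →
            ((Q i).a : ℚ) / (Q i).b ≠ ((Q i').a : ℚ) / (Q i').b := by
          intro i i' h1 h2 h3
          rw [div_eq_div_iff (hb i (by omega)) (hb i' h2)] at h3
          exact hfam.ne i i' h1 h2 (by exact_mod_cast h3)
        intro i hi i' hi' he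
        simp only [coe_range, Set.mem_Iio] at hi hi'
        have he2 := congrArg Prod.snd he
        rcases lt_trichotomy i i' with h | h | h
        · exact absurd he2 (key i i' h hi')
        · exact h
        · exact absurd he2.symm (key i' i h hi)
    · set x : ℝ := Bd j / (q : ℝ) ^ i with hx
      have hx0 : 0 ≤ x := div_nonneg (hBd j) (by positivity)
      set D : ℤ := ((Q i).p : ℤ) ^ (r - j * r2) * (q : ℤ) ^ i with hD
      refine ⟨(Icc (-⌊x⌋) ⌊x⌋).image (fun u : ℤ => ((D * u : ℤ) : ℚ) /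
        (((Q i).y : ℚ) ^ (m - j * m2) * ((Q i).b : ℚ) ^ (n - j * n2))), ?_, ?_⟩
      · refine le_trans ?_ (le_trans (card_Icc_floor x hx0) (le_of_eq ?_))
        · exact_mod_cast card_image_le
        · simp only [hx]
          ring
      · intro f hf h he hv
        have h0x : 0 ≤ ⌊x⌋ := Int.floor_nonneg.mpr hx0
        by_cases h0 : h = 0
        · refine mem_image.mpr ⟨0, mem_Icc.mpr ⟨by omega, h0x⟩, ?_⟩
          rw [h0, map_zero]
          simp
        have hu : U (g ^ j * h) := he ▸ hU f hf f0 hf0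
        obtain ⟨h1, h2, h3⟩ := hdeg j h hu h0
        have hp := (hfam.inc i hi).sq.plc.prime
        have d1 : ((Q i).p : ℤ) ^ (r - j * r2) ∣ (Q i).val (m - j * m2) (n - j * n2) h :=
          hP K d θ ω hst X A B p0 (Q i) (hfam.inc i hi) _ _ _ h h3 (hord j h hu)
        have d2 : (q : ℤ) ^ i ∣ (Q i).val (m - j * m2) (n - j * n2) h := by
          refine hS q hq m2 n2 _ _ i g h (fun k => (Q k).x) (fun k => (Q k).y) (fun k => (Q k).a)
            (fun k => (Q k).b) (by omega) hgD h3 (fun k hk => ?_) (fun k l hkl hl => ?_)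
            (fun k hk => ?_)
          · have hk' : k < N := by omega
            exact ⟨hfam.unit k hk', hfam.cs k hk', hfam.ct k hk', hfam.on k hk'⟩
          · exact hfam.ne k l hkl (by omega)
          · have h4 := hve k (by omega) _ _ h h3
            rw [hv k hk, mul_zero] at h4
            exact_mod_cast h4
        have hne : (Q i).p ≠ q := by
          intro e
          have := (hfam.inc i hi).p0
          rw [e] at this
          linarith
        have hcop : IsCoprime (((Q i).p : ℤ) ^ (r - j * r2)) ((q : ℤ) ^ i) :=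
          IsCoprime.pow (Nat.isCoprime_iff_coprime.mpr ((Nat.coprime_primes hp hq).mpr hne))
        obtain ⟨u, hu'⟩ := hcop.mul_dvd d1 d2
        have hbd := hval f hf f0 hf0 j h h0 he i hi
        have hp0 : (0 : ℝ) < ((Q i).p : ℝ) ^ (r - j * r2) := by
          have : (0 : ℝ) < (Q i).p := by exact_mod_cast hp.pos
          positivity
        have hux : |(u : ℝ)| ≤ x := by
          rw [hu'] at hbd
          push_cast at hbd
          rw [abs_mul, abs_mul, abs_of_pos hp0, abs_of_pos (pow_pos hq0 i)] at hbd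
          rw [hx, le_div_iff₀ (pow_pos hq0 i)]
          have : ((Q i).p : ℝ) ^ (r - j * r2) * (|(u : ℝ)| * (q : ℝ) ^ i) ≤
              ((Q i).p : ℝ) ^ (r - j * r2) * Bd j := by linarith
          exact le_of_mul_le_mul_left this hp0
        rw [abs_le] at hux
        refine mem_image.mpr ⟨u, mem_Icc.mpr ⟨?_, Int.le_floor.mpr hux.2⟩, ?_⟩
        · have : -u ≤ ⌊x⌋ := Int.le_floor.mpr (by push_cast; linarith)
          omega
        · have h4 := hve i hi _ _ h h3
          rw [hD, ← hu', h4]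
          have := hy i hi
          have := hb i hi
          field_simp

end Pool.Agent.MP_542436_nt.H79
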